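import Pool.Agent.Helper19.ND.PIC
import Pool.Agent.Helper28.ND.Spec2

/-!
# ND2, part FLOC: locality, uniqueness and symmetries of the forward problem
-/

set_option autoImplicit false

namespace Pool.Agent.Helper92.ND.FLOC

open Pool.Agent.Helper28.ND Pool.Agent.Helper19.ND MeasureTheory Set Filter Topology
open ProbabilityTheory

variable {d : ℕ}

/-- uniqueness for the homogeneous fixed point equation -/
theorem uniq {S K M0 : ℝ} (b : ℝ → (Fin d → ℝ) → (Fin d → ℝ)) (hb : ∀ t x i, |b t x i| ≤ K)
    (D : ℝ → (Fin d → ℝ) → (Fin d → ℝ)) (hM : ∀ t x i, |D t x i| ≤ M0)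
    (h0 : ∀ t, t ≤ 0 → ∀ x i, D t x i = 0) (t0 : ℝ) (h1 : ∀ t, t0 < t → ∀ x i, D t x i = 0)
    (heq : ∀ t, t ≤ t0 → ∀ x i, D t x i =
      Vel S (fun s y => -∑ j, b (S - s) y j * D (S - s) y j) i (S - t) x) :
    ∀ t x i, D t x i = 0 := by
  obtain ⟨l, hl, hsmall⟩ := PIC.kap_small (d * |K|) (by positivity)
  have key : ∀ n : ℕ, ∀ t x i, |D t x i| ≤ (|M0| * (1 / 2) ^ n) * Real.exp (l * t) := by
    intro n
    induction n with
    | zero =>
      intro t x i
      rw [pow_zero, mul_one]
      rcases le_or_gt t 0 with h | h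
      · rw [h0 t h x i, abs_zero]
        positivity
      · have h2 : 1 ≤ Real.exp (l * t) := Real.one_le_exp (by positivity)
        calc |D t x i| ≤ |M0| * 1 := by
              rw [mul_one]
              exact (hM t x i).trans (le_abs_self M0)
          _ ≤ |M0| * Real.exp (l * t) := mul_le_mul_of_nonneg_left h2 (abs_nonneg _)
    | succ n ih =>
      intro t x i
      rcases le_or_gt t t0 with h | h
      · rw [heq t h x i]
        set N : ℝ := |M0| * (1 / 2) ^ n with hN
        have hN0 : 0 ≤ N := by positivity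
        have hF : ∀ s y, |-∑ j, b (S - s) y j * D (S - s) y j| ≤
            ((d * |K| * N) * Real.exp (l * S)) * Real.exp (-l * s) := by
          intro s y
          rw [abs_neg]
          refine (Finset.abs_sum_le_sum_abs _ _).trans ?_
          have h2 : ∀ j ∈ (Finset.univ : Finset (Fin d)), |b (S - s) y j * D (S - s) y j| ≤
              |K| * (N * Real.exp (l * (S - s))) := by
            intro j _
            rw [abs_mul]
            exact mul_le_mul ((hb _ _ j).trans (le_abs_self K)) (ih _ _ j) (abs_nonneg _)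
              (abs_nonneg _)
          refine (Finset.sum_le_sum h2).trans ?_
          rw [Finset.sum_const, Finset.card_univ, Fintype.card_fin, nsmul_eq_mul]
          have h3 : Real.exp (l * (S - s)) = Real.exp (l * S) * Real.exp (-l * s) := by
            rw [← Real.exp_add]
            ring_nf
          rw [h3]
          apply le_of_eq
          ring
        have h4 := vel_wt S _ l ((d * |K| * N) * Real.exp (l * S)) hl (by positivity) hF i (S - t) x
        refine h4.trans ?_
        have h5 : Real.exp (l * S) * Real.exp (-l * (S - t)) = Real.exp (l * t) := by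
          rw [← Real.exp_add]
          ring_nf
        have h6 : d * |K| * N * Real.exp (l * S) * kap l * Real.exp (-l * (S - t)) =
            (d * |K| * kap l) * N * Real.exp (l * t) := by
          rw [← h5]
          ring
        rw [h6]
        refine mul_le_mul_of_nonneg_right ?_ (Real.exp_pos _).le
        calc (d * |K| * kap l) * N ≤ (1 / 2) * N := mul_le_mul_of_nonneg_right hsmall hN0
          _ = |M0| * (1 / 2) ^ (n + 1) := by rw [hN, pow_succ]; ring
      · rw [h1 t h x i, abs_zero]
        positivity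
  intro t x i
  have h2 : Tendsto (fun n : ℕ => (|M0| * (1 / 2) ^ n) * Real.exp (l * t)) atTop
      (𝓝 ((|M0| * 0) * Real.exp (l * t))) :=
    Tendsto.mul_const _ (Tendsto.const_mul _
      (tendsto_pow_atTop_nhds_zero_of_lt_one (by norm_num) (by norm_num)))
  rw [mul_zero, zero_mul] at h2
  have h3 : |D t x i| ≤ 0 := ge_of_tendsto h2 (Eventually.of_forall fun n => key n t x i)
  exact abs_nonpos_iff.1 h3

theorem vel_congr (S : ℝ) (F G : ℝ → (Fin d → ℝ) → ℝ) (t : ℝ)
    (h : ∀ r, 0 < r → r < S → ∀ y, F (t + r) y = G (t + r) y) (i : Fin d) (x : Fin d → ℝ) :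
    Vel S F i t x = Vel S G i t x := by
  unfold Vel
  refine setIntegral_congr_fun measurableSet_Ioo fun r hr => ?_
  simp only [h r hr.1 hr.2]

theorem phi_congr (S : ℝ) (F G : ℝ → (Fin d → ℝ) → ℝ) (t : ℝ)
    (h : ∀ r, 0 < r → r < S → ∀ y, F (t + r) y = G (t + r) y) (x : Fin d → ℝ) :
    Phi S F t x = Phi S G t x := by
  unfold Phi
  refine setIntegral_congr_fun measurableSet_Ioo fun r hr => ?_
  simp only [h r hr.1 hr.2]

/-- the standard Gaussian measure is invariant under changes of signs -/
theorem gam_sign (e : Fin d → ℝ) (he : ∀ i, e i = 1 ∨ e i = -1) (g : (Fin d → ℝ) → ℝ) :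
    ∫ z, g (fun i => e i * z i) ∂(gam d) = ∫ z, g z ∂(gam d) := by
  have h1 : MeasurePreserving (fun (z : Fin d → ℝ) (i : Fin d) => e i * z i) (gam d) (gam d) := by
    unfold gam
    refine measurePreserving_pi (fun _ => gaussianReal 0 1) (fun _ => gaussianReal 0 1)
      (f := fun i y => e i * y) fun i => ⟨by fun_prop, ?_⟩
    rw [gaussianReal_map_const_mul]
    congr 1
    · simp
    · ext
      simp only [mul_one]
      rcases he i with h | h <;> rw [h] <;> norm_num
  have hinv : Function.Involutive (fun (z : Fin d → ℝ) (i : Fin d) => e i * z i) := by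
    intro z
    funext i
    simp only
    rcases he i with h | h <;> rw [h] <;> ring
  have h2 : MeasurableEmbedding (fun (z : Fin d → ℝ) (i : Fin d) => e i * z i) :=
    (MeasurableEquiv.ofInvolutive _ hinv (by fun_prop)).measurableEmbedding
  exact h1.integral_comp h2 g

theorem rf_meas {T : ℝ} {b : ℝ → (Fin d → ℝ) → (Fin d → ℝ)} {f : ℝ → (Fin d → ℝ) → ℝ}
    {v : ℝ → (Fin d → ℝ) → (Fin d → ℝ)} (hb : Measurable (U b)) (hf : Measurable (U f))
    (hv : Measurable (U v)) : Measurable (U (RF T b f v)) := by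
  have hs : Measurable (fun z : ℝ × (Fin d → ℝ) => ((1 + T - z.1, z.2) : ℝ × (Fin d → ℝ))) := by
    fun_prop
  have h1 : U (RF T b f v) = fun z => U f (1 + T - z.1, z.2) -
      ∑ j, (U b (1 + T - z.1, z.2)) j * (U v (1 + T - z.1, z.2)) j := rfl
  rw [h1]
  refine Measurable.sub (hf.comp hs) (Finset.measurable_fun_sum _ fun j _ => ?_)
  exact ((measurable_pi_apply j).comp (hb.comp hs)).mul ((measurable_pi_apply j).comp (hv.comp hs))

theorem rf_bd {T B C : ℝ} {b : ℝ → (Fin d → ℝ) → (Fin d → ℝ)} {f : ℝ → (Fin d → ℝ) → ℝ}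
    {v : ℝ → (Fin d → ℝ) → (Fin d → ℝ)} (hb : ∀ t x, |f t x| ≤ B ∧ ∀ i, |b t x i| ≤ B)
    (hv : ∀ t x i, |v t x i| ≤ C) : ∀ t x, |RF T b f v t x| ≤ |B| + ∑ _i : Fin d, |B| * |C| := by
  intro t x
  unfold RF
  refine (abs_sub _ _).trans (add_le_add ((hb _ _).1.trans (le_abs_self B)) ?_)
  refine (Finset.abs_sum_le_sum_abs _ _).trans (Finset.sum_le_sum fun i _ => ?_)
  rw [abs_mul]
  exact mul_le_mul (((hb _ _).2 i).trans (le_abs_self B)) ((hv _ _ i).trans (le_abs_self C))
    (abs_nonneg _) (abs_nonneg _)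

/-- before the start of the source the solution is zero -/
theorem vzero {T : ℝ} {b : ℝ → (Fin d → ℝ) → (Fin d → ℝ)} {f : ℝ → (Fin d → ℝ) → ℝ}
    {u : ℝ → (Fin d → ℝ) → ℝ} {v : ℝ → (Fin d → ℝ) → (Fin d → ℝ)} (h : FSol d T b f u v)
    (de : ℝ) (hf : ∀ t, t ≤ de → ∀ x, f t x = 0) :
    ∀ t, t ≤ de → ∀ x i, v t x i = 0 := by
  obtain ⟨B, hB⟩ := h.dat.bdd
  obtain ⟨C, hC⟩ := h.bv
  have hneg : ∀ t, t ≤ 0 → ∀ x i, v t x i = 0 := by
    intro t ht x i
    rw [h.ev t x i]
    refine vel_zero (1 + T) _ _ (fun r hr y => ?_) i x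
    unfold RF
    have h1 : 1 + T - (1 + T - t + r) ≤ 0 := by linarith [hr.1]
    rw [h.dat.sf _ (Or.inl h1) y]
    simp [h.dat.sb _ (Or.inl h1) y]
  have h2 := uniq (S := 1 + T) (M0 := |C|) b (fun t x i => (hB t x).2 i)
    (fun t x i => if t ≤ de then v t x i else 0) (by
      intro t x i
      split_ifs
      · exact (hC t x i).trans (le_abs_self C)
      · rw [abs_zero]
        positivity)
    (by
      intro t ht x i
      simp only [hneg t ht x i, ite_self])
    de (by
      intro t ht x i
      rw [if_neg (not_le.2 ht)])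
    (by
      intro t ht x i
      rw [if_pos ht, h.ev t x i]
      refine vel_congr _ _ _ _ (fun r hr0 _ y => ?_) i x
      unfold RF
      have h1 : 1 + T - (1 + T - t + r) ≤ de := by linarith
      rw [hf _ h1 y, zero_sub]
      congr 1
      refine Finset.sum_congr rfl fun j _ => ?_
      rw [if_pos h1])
  intro t ht x i
  have h3 := h2 t x i
  rwa [if_pos ht] at h3

theorem main : S_FLOC := by
  intro d T b b' f f' u u' v v' hT h h' e a c de t0 he hc hde hbf hf'
  have hcc : c * c = 1 := by rcases hc with h | h <;> rw [h] <;> norm_num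
  have hee : ∀ i, e i * e i = 1 := fun i => by rcases he i with h | h <;> rw [h] <;> norm_num
  have hv'0 := vzero h' de hf'
  have hv0 := vzero h 0 (fun t ht x => h.dat.sf t (Or.inl ht) x)
  obtain ⟨B, hB⟩ := h.dat.bdd
  obtain ⟨C, hC⟩ := h.bv
  obtain ⟨C', hC'⟩ := h'.bv
  set A : (Fin d → ℝ) → (Fin d → ℝ) := fun x i => e i * x i + a i with hA
  have hAm : Measurable A := by
    rw [hA]
    fun_prop
  set w : ℝ → (Fin d → ℝ) → (Fin d → ℝ) := fun t x i => c * e i * v' (t + de) (A x) i with hw
  have hwm : Measurable (U w) := by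
    refine measurable_pi_iff.2 fun i => ?_
    have h1 : (fun z : ℝ × (Fin d → ℝ) => U w z i) =
        fun z => c * e i * (U v' (z.1 + de, A z.2)) i := rfl
    rw [h1]
    refine Measurable.const_mul ?_ _
    refine (measurable_pi_apply i).comp (h'.mv.comp ?_)
    exact (measurable_fst.add_const de).prodMk (hAm.comp measurable_snd)
  have hwb : ∀ t x i, |w t x i| ≤ |C'| := by
    intro t x i
    rw [hw]
    simp only
    rw [abs_mul, abs_mul]
    have h1 : |c| = 1 := by rcases hc with h | h <;> rw [h] <;> norm_num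
    have h2 : |e i| = 1 := by rcases he i with h | h <;> rw [h] <;> norm_num
    rw [h1, h2, one_mul, one_mul]
    exact (hC' _ _ i).trans (le_abs_self _)
  have hw0 : ∀ t, t ≤ 0 → ∀ x i, w t x i = 0 := by
    intro t ht x i
    rw [hw]
    simp only
    rw [hv'0 (t + de) (by linarith) (A x) i, mul_zero]
  -- the sources
  have hsrc : ∀ t, t < t0 → ∀ y, c * (f' (t + de) (A y) - ∑ j, b' (t + de) (A y) j *
      v' (t + de) (A y) j) = f t y - ∑ j, b t y j * w t y j := by
    intro t ht y
    rcases le_or_gt t 0 with h1 | h1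
    · rw [hf' (t + de) (by linarith) (A y), h.dat.sf t (Or.inl h1) y]
      have e1 : ∑ j, b' (t + de) (A y) j * v' (t + de) (A y) j = 0 :=
        Finset.sum_eq_zero fun j _ => by rw [hv'0 (t + de) (by linarith) (A y) j, mul_zero]
      have e2 : ∑ j, b t y j * w t y j = 0 :=
        Finset.sum_eq_zero fun j _ => by rw [hw0 t h1 y j, mul_zero]
      rw [e1, e2]
      ring
    · obtain ⟨g1, g2⟩ := hbf t h1 ht y
      have g1' : f' (t + de) (A y) = c * f t y := g1
      have g2' : ∀ i, b' (t + de) (A y) i = e i * b t y i := g2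
      rw [g1', mul_sub, ← mul_assoc, hcc, one_mul, Finset.mul_sum]
      congr 1
      refine Finset.sum_congr rfl fun j _ => ?_
      rw [g2' j, hw]
      ring
  have hRF : ∀ t r, 0 < r → t ≤ t0 → ∀ y, c * RF T b' f' v' (1 + T - (t + de) + r) (A y) =
      RF T b f w (1 + T - t + r) y := by
    intro t r hr ht y
    unfold RF
    have e1 : 1 + T - (1 + T - (t + de) + r) = (t - r) + de := by ring
    have e2 : 1 + T - (1 + T - t + r) = t - r := by ring
    rw [e1, e2]
    exact hsrc (t - r) (by linarith) y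
  have hAz : ∀ (x z : Fin d → ℝ) (q : ℝ), A x + q • (fun i => e i * z i) = A (x + q • z) := by
    intro x z q
    funext i
    simp only [hA, Pi.add_apply, Pi.smul_apply, smul_eq_mul]
    ring
  have hwe : ∀ t, t ≤ t0 → ∀ x i, w t x i = Vel (1 + T) (RF T b f w) i (1 + T - t) x := by
    intro t ht x i
    have h1 : w t x i = c * e i * v' (t + de) (A x) i := rfl
    rw [h1, h'.ev (t + de) (A x) i]
    unfold Vel
    rw [← integral_const_mul]
    refine setIntegral_congr_fun measurableSet_Ioo fun r hr => ?_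
    rw [← gam_sign e he, ← integral_const_mul]
    refine integral_congr_ae (Eventually.of_forall fun z => ?_)
    simp only
    rw [hAz x z (Real.sqrt (2 * r)), ← hRF t r hr.1 ht]
    have h2 := hee i
    calc c * e i * (e i * z i / Real.sqrt (2 * r) *
          RF T b' f' v' (1 + T - (t + de) + r) (A (x + Real.sqrt (2 * r) • z)))
        = (e i * e i) * (z i / Real.sqrt (2 * r) *
          (c * RF T b' f' v' (1 + T - (t + de) + r) (A (x + Real.sqrt (2 * r) • z)))) := by ring
      _ = _ := by rw [h2, one_mul]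
  -- the difference
  have hD := uniq (S := 1 + T) (M0 := |C| + |C'|) b (fun t x i => (hB t x).2 i)
    (fun t x i => if t ≤ t0 then v t x i - w t x i else 0) (by
      intro t x i
      split_ifs
      · exact (abs_sub _ _).trans (add_le_add ((hC t x i).trans (le_abs_self C)) (hwb t x i))
      · rw [abs_zero]
        positivity)
    (by
      intro t ht x i
      simp only [hv0 t ht x i, hw0 t ht x i, sub_zero, ite_self])
    t0 (by
      intro t ht x i
      rw [if_neg (not_le.2 ht)])
    (by
      intro t ht x i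
      rw [if_pos ht, h.ev t x i, hwe t ht x i]
      rw [← vel_sub (1 + T) _ _ (rf_meas h.dat.mb h.dat.mf h.mv) (rf_meas h.dat.mb h.dat.mf hwm)
        _ (rf_bd hB hC) _ (rf_bd hB hwb) i _ x]
      refine vel_congr _ _ _ _ (fun r hr0 _ y => ?_) i x
      unfold RF
      have h1 : 1 + T - (1 + T - t + r) ≤ t0 := by linarith
      simp only [if_pos h1, mul_sub, Finset.sum_sub_distrib]
      ring)
  have hvw : ∀ t, t ≤ t0 → ∀ x i, v t x i = w t x i := by
    intro t ht x i
    have h3 := hD t x i
    rw [if_pos ht] at h3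
    linarith
  intro t ht x
  change u' (t + de) (A x) = c * u t x
  rw [h'.eu (t + de) (A x), h.eu t x]
  unfold Phi
  rw [← integral_const_mul]
  refine setIntegral_congr_fun measurableSet_Ioo fun r hr => ?_
  rw [← gam_sign e he, ← integral_const_mul]
  refine integral_congr_ae (Eventually.of_forall fun z => ?_)
  simp only
  rw [hAz x z (Real.sqrt (2 * r))]
  have h1 := hRF t r hr.1 ht (x + Real.sqrt (2 * r) • z)
  have h2 : RF T b f w (1 + T - t + r) (x + Real.sqrt (2 * r) • z) =
      RF T b f v (1 + T - t + r) (x + Real.sqrt (2 * r) • z) := by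
    unfold RF
    congr 1
    refine Finset.sum_congr rfl fun j _ => ?_
    rw [hvw _ (by linarith [hr.1]) _ j]
  rw [← h2, ← h1, ← mul_assoc, hcc, one_mul]

end Pool.Agent.Helper92.ND.FLOC
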